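import Mathlib

set_option autoImplicit false
open Filter Topology NNReal

namespace Pool.Agent.Results.MP_e93574_an.FixedPoint

/-- The class `Γ`: continuous, nondecreasing, subadditive maps `γ : [0,∞) → [0,∞)` vanishing
exactly at `0`. -/
structure IsGamma (γ : ℝ≥0 → ℝ≥0) : Prop where
  cont : Continuous γ
  mono : Monotone γ
  subadd : ∀ s t : ℝ≥0, γ (s + t) ≤ γ s + γ t
  zero_iff : ∀ t : ℝ≥0, γ t = 0 ↔ t = 0

/-- The class `𝒜`: maps `θ : [0,∞) → [0,∞)` such that for some `ε₀ > 0` and `γ ∈ Γ`,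
`θ t ≤ ε₀` implies `θ t ≥ γ t` for every `t`. -/
def IsA (θ : ℝ≥0 → ℝ≥0) : Prop :=
  ∃ ε₀ : ℝ≥0, 0 < ε₀ ∧ ∃ γ : ℝ≥0 → ℝ≥0, IsGamma γ ∧ ∀ t : ℝ≥0, θ t ≤ ε₀ → γ t ≤ θ t

/-- `T` is weakly contractive with respect to `θ`: the Hausdorff distance of `T x` and `T y` is
at most `d(x,y) - θ(d(x,y))`. -/
def WeaklyContractive {X : Type*} [MetricSpace X] (θ : ℝ≥0 → ℝ≥0) (T : X → Set X) : Prop :=
  ∀ x y : X, Metric.hausdorffDist (T x) (T y) ≤ dist x y - (θ (nndist x y) : ℝ)

lemma gamma_nsmul {γ : ℝ≥0 → ℝ≥0} (hγ : IsGamma γ) (n : ℕ) (t : ℝ≥0) :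
    γ (n * t) ≤ n * γ t := by
  induction n with
  | zero =>
    have : γ 0 = 0 := (hγ.zero_iff 0).mpr rfl
    simp [this]
  | succ n ih =>
    have h := hγ.subadd (n * t) t
    have e : ((n + 1 : ℕ) : ℝ≥0) * t = n * t + t := by push_cast; ring
    rw [e]
    calc γ (n * t + t) ≤ γ (n * t) + γ t := h
      _ ≤ n * γ t + γ t := by gcongr
      _ = ((n + 1 : ℕ) : ℝ≥0) * γ t := by push_cast; ring

/-- on bounded ranges, a function of class `𝒜` dominates a linear function -/
lemma linear_lower {θ : ℝ≥0 → ℝ≥0} (hθ : IsA θ) (R : ℝ) (hR : 0 ≤ R) :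
    ∃ c : ℝ, 0 < c ∧ c < 1 ∧ ∀ t : ℝ≥0, (t : ℝ) ≤ R → c * t ≤ θ t := by
  obtain ⟨ε₀, hε₀, γ, hγ, h⟩ := hθ
  have hγ1 : 0 < γ 1 := by
    rw [pos_iff_ne_zero]
    intro h0
    exact one_ne_zero ((hγ.zero_iff 1).mp h0)
  set g : ℝ := min (ε₀ : ℝ) (γ 1 : ℝ) with hg
  have hg0 : 0 < g := lt_min (by exact_mod_cast hε₀) (by exact_mod_cast hγ1)
  have hgε : g ≤ ε₀ := min_le_left _ _
  have hgγ : g ≤ γ 1 := min_le_right _ _
  refine ⟨min (g / (2 * (R + 1))) (1 / 2), lt_min (by positivity) (by norm_num),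
    lt_of_le_of_lt (min_le_right _ _) (by norm_num), ?_⟩
  intro t ht
  have ht0 : (0 : ℝ) ≤ t := t.2
  -- it is enough to bound `γ t` or `ε₀` from below
  have hmain : min (g / (2 * (R + 1))) (1 / 2) * (t : ℝ) ≤ ε₀ ∧
      min (g / (2 * (R + 1))) (1 / 2) * (t : ℝ) ≤ γ t := by
    have hc : min (g / (2 * (R + 1))) (1 / 2) * (t : ℝ) ≤ g / (2 * (R + 1)) * t :=
      mul_le_mul_of_nonneg_right (min_le_left _ _) ht0
    have hR1 : 0 < 2 * (R + 1) := by linarith
    have h1 : g / (2 * (R + 1)) * t ≤ g / 2 := by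
      rw [div_mul_eq_mul_div, div_le_div_iff₀ hR1 (by norm_num)]
      nlinarith
    refine ⟨by linarith, ?_⟩
    by_cases ht1 : (1 : ℝ≥0) ≤ t
    · have h2 : (γ 1 : ℝ) ≤ γ t := by exact_mod_cast hγ.mono ht1
      linarith
    · push Not at ht1
      by_cases htz : t = 0
      · subst htz
        simp
      have htpos : 0 < t := pos_iff_ne_zero.mpr htz
      have htpos' : (0 : ℝ) < t := by exact_mod_cast htpos
      have ht1' : (t : ℝ) < 1 := by exact_mod_cast ht1
      set n : ℕ := ⌈1 / (t : ℝ)⌉₊ with hn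
      have hn1 : 1 / (t : ℝ) ≤ n := Nat.le_ceil _
      have hn2 : (n : ℝ) < 1 / (t : ℝ) + 1 := Nat.ceil_lt_add_one (by positivity)
      have hnt : (1 : ℝ≥0) ≤ n * t := by
        have : (1 : ℝ) ≤ n * t := by
          rw [div_le_iff₀ htpos'] at hn1
          exact hn1
        exact_mod_cast this
      have h3 : (γ 1 : ℝ) ≤ n * γ t := by
        exact_mod_cast (hγ.mono hnt).trans (gamma_nsmul hγ n t)
      have hγt : (0 : ℝ) ≤ γ t := (γ t).2
      have h4 : (n : ℝ) * γ t ≤ (2 / t) * γ t := by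
        apply mul_le_mul_of_nonneg_right _ hγt
        have : 1 ≤ 1 / (t : ℝ) := by
          rw [le_div_iff₀ htpos']; linarith
        have e : 2 / (t : ℝ) = 1 / t + 1 / t := by ring
        linarith
      have h5 : g * t ≤ 2 * γ t := by
        have h6 : g ≤ 2 / t * γ t := by linarith
        rw [div_mul_eq_mul_div, le_div_iff₀ htpos'] at h6
        exact h6
      have h7 : g / (2 * (R + 1)) * t ≤ g * t / 2 := by
        rw [div_mul_eq_mul_div, div_le_div_iff₀ hR1 (by norm_num)]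
        have : 0 ≤ g * t := by positivity
        nlinarith
      linarith
  by_cases hle : θ t ≤ ε₀
  · have := h t hle
    have h' : (γ t : ℝ) ≤ θ t := by exact_mod_cast this
    exact hmain.2.trans h'
  · push Not at hle
    have h' : (ε₀ : ℝ) ≤ θ t := by exact_mod_cast hle.le
    exact hmain.1.trans h'

/-- **Fixed points of weakly contractive set-valued maps.**  A weakly contractive map with
nonempty closed bounded values on a nonempty complete metric space has a fixed point. -/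
theorem result {X : Type*} [MetricSpace X] [CompleteSpace X] [Nonempty X]
    (θ : ℝ≥0 → ℝ≥0) (hθ : IsA θ) (T : X → Set X)
    (hne : ∀ x, (T x).Nonempty) (hcl : ∀ x, IsClosed (T x))
    (hbd : ∀ x, Bornology.IsBounded (T x)) (hT : WeaklyContractive θ T) :
    ∃ x : X, x ∈ T x := by
  obtain ⟨x0⟩ := ‹Nonempty X›
  obtain ⟨x1, hx1⟩ := hne x0
  set R : ℝ := dist x0 x1 with hR
  obtain ⟨c, hc0, hc1, hc⟩ := linear_lower hθ R dist_nonneg
  have hfin : ∀ x y, Metric.hausdorffEDist (T x) (T y) ≠ ⊤ := fun x y =>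
    Metric.hausdorffEDist_ne_top_of_nonempty_of_bounded (hne x) (hne y) (hbd x) (hbd y)
  have hcontr : ∀ x y : X, dist x y ≤ R →
      Metric.hausdorffDist (T x) (T y) ≤ (1 - c) * dist x y := by
    intro x y hxy
    have h1 := hT x y
    have h2 := hc (nndist x y) (by simpa using hxy)
    rw [coe_nndist] at h2
    linarith
  set k : ℝ := 1 - c / 2 with hk
  have hk0 : 0 ≤ k := by rw [hk]; linarith
  have hk1 : k < 1 := by rw [hk]; linarith
  have hstep : ∀ x y : X, y ∈ T x → dist x y ≤ R → ∃ z ∈ T y, dist y z ≤ k * dist x y := by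
    intro x y hyx hxy
    by_cases he : x = y
    · subst he
      exact ⟨x, hyx, by simp⟩
    · have hpos : 0 < dist x y := dist_pos.mpr he
      have hlt : Metric.hausdorffDist (T x) (T y) < k * dist x y := by
        refine lt_of_le_of_lt (hcontr x y hxy) ?_
        rw [hk]
        nlinarith
      obtain ⟨z, hz, hyz⟩ := Metric.exists_dist_lt_of_hausdorffDist_lt hyx hlt (hfin x y)
      exact ⟨z, hz, hyz.le⟩
  -- the sequence of approximations
  let S := {p : X × X // p.2 ∈ T p.1 ∧ dist p.1 p.2 ≤ R}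
  have hS : ∀ p : S, ∃ q : S, q.1.1 = p.1.2 ∧ dist q.1.1 q.1.2 ≤ k * dist p.1.1 p.1.2 := by
    intro p
    obtain ⟨z, hz1, hz2⟩ := hstep p.1.1 p.1.2 p.2.1 p.2.2
    refine ⟨⟨(p.1.2, z), hz1, ?_⟩, rfl, hz2⟩
    refine hz2.trans (le_trans ?_ p.2.2)
    have : 0 ≤ dist p.1.1 p.1.2 := dist_nonneg
    nlinarith
  choose F hF1 hF2 using hS
  let p0 : S := ⟨(x0, x1), hx1, le_rfl⟩
  let s : ℕ → S := fun n => F^[n] p0
  have hs : ∀ n, s (n + 1) = F (s n) := fun n => Function.iterate_succ_apply' F n p0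
  let u : ℕ → X := fun n => (s n).1.1
  have hu1 : ∀ n, u (n + 1) = (s n).1.2 := by
    intro n
    show (s (n + 1)).1.1 = _
    rw [hs]; exact hF1 (s n)
  have hdist : ∀ n, dist (u n) (u (n + 1)) ≤ R * k ^ n := by
    intro n
    rw [hu1]
    induction n with
    | zero => simp [s, u, p0, hR]
    | succ n ih =>
      have h1 := hF2 (s n)
      rw [← hs] at h1
      calc dist (u (n + 1)) (s (n + 1)).1.2 ≤ k * dist (s n).1.1 (s n).1.2 := h1
        _ ≤ k * (R * k ^ n) := mul_le_mul_of_nonneg_left ih hk0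
        _ = R * k ^ (n + 1) := by ring
  have hcau : CauchySeq u := cauchySeq_of_le_geometric k R hk1 hdist
  obtain ⟨x, hx⟩ := cauchySeq_tendsto_of_complete hcau
  refine ⟨x, ?_⟩
  rw [(hcl x).mem_iff_infDist_zero (hne x)]
  have hmem : ∀ n, u (n + 1) ∈ T (u n) := by
    intro n
    rw [hu1]
    exact (s n).2.1
  have hbound : ∀ n, Metric.infDist x (T x) ≤ dist (u n) x + dist x (u (n + 1)) := by
    intro n
    have h1 : Metric.infDist x (T x) ≤ Metric.infDist (u (n + 1)) (T x) + dist x (u (n + 1)) :=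
      Metric.infDist_le_infDist_add_dist
    have h2 := Metric.infDist_le_hausdorffDist_of_mem (hmem n) (hfin (u n) x)
    have h3 := hT (u n) x
    have h4 : (0 : ℝ) ≤ θ (nndist (u n) x) := (θ (nndist (u n) x)).2
    linarith
  have hlim : Tendsto (fun n => dist (u n) x + dist x (u (n + 1))) atTop (𝓝 0) := by
    have h1 : Tendsto (fun n => dist (u n) x) atTop (𝓝 0) := by
      rw [← dist_self x]
      exact hx.dist tendsto_const_nhds
    have h2 : Tendsto (fun n => dist x (u (n + 1))) atTop (𝓝 0) := by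
      rw [← dist_self x]
      exact tendsto_const_nhds.dist (hx.comp (tendsto_add_atTop_nat 1))
    simpa using h1.add h2
  exact le_antisymm (ge_of_tendsto' hlim hbound) Metric.infDist_nonneg

end Pool.Agent.Results.MP_e93574_an.FixedPoint
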